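import Pool.Agent.Helper14.T3.StL

/-!
# Project T3: reciprocity of Dedekind sums (module Dsr)
-/

set_option autoImplicit false

namespace Pool.Agent.Helper9.T3

open Pool.Agent.Helper14.T3 Pool.Agent.Helper14.W3 Pool.Agent.Helper78.W3
open Finset

private lemma perm (p q : ℕ) (hq : 1 ≤ q) (h : Nat.Coprime p q) (F : ℕ → ℤ) :
    ∑ k ∈ range q, F (p * k % q) = ∑ k ∈ range q, F k := by
  have hmaps : ∀ k ∈ range q, p * k % q ∈ range q := fun k _ =>
    mem_range.2 (Nat.mod_lt _ (by omega))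
  have hinj : Set.InjOn (fun k => p * k % q) (range q : Set ℕ) := by
    intro a ha b hb hab
    have ha' := mem_range.1 (mem_coe.1 ha)
    have hb' := mem_range.1 (mem_coe.1 hb)
    have h1 : p * a ≡ p * b [MOD q] := hab
    have h2 : a ≡ b [MOD q] := Nat.ModEq.cancel_left_of_coprime (by
      rw [Nat.gcd_comm]; exact h) h1
    exact Nat.ModEq.eq_of_lt_of_lt h2 ha' hb'
  have hsurj : Set.SurjOn (fun k => p * k % q) (range q : Set ℕ) (range q : Set ℕ) :=
    Finset.surjOn_of_injOn_of_card_le _ hmaps hinj le_rfl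
  exact Finset.sum_nbij (fun k => p * k % q) hmaps hinj hsurj (fun _ _ => rfl)

/-- the number of `k < q` with `pk/q > j` -/
private lemma cnt (p q j : ℕ) (hp : 1 ≤ p) (hq : 1 ≤ q) (h : Nat.Coprime p q) (hj : j + 1 < p) :
    (((range q).filter fun k => j < p * k / q).card : ℤ) = q - 1 - ((q * (j + 1) / p : ℕ) : ℤ) := by
  set g := q * (j + 1) / p with hg
  have hnd : ¬ p ∣ q * (j + 1) := by
    intro hd
    have h2 : p ∣ j + 1 := h.dvd_of_dvd_mul_left hd
    have := Nat.le_of_dvd (by omega) h2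
    omega
  have hgq : g < q := by
    rw [hg, Nat.div_lt_iff_lt_mul (by omega)]
    exact Nat.mul_lt_mul_of_pos_left hj (by omega)
  have hset : (range q).filter (fun k => j < p * k / q) = Ico (g + 1) q := by
    ext k
    rw [mem_filter, mem_range, mem_Ico]
    have e1 : (j < p * k / q) ↔ q * (j + 1) ≤ p * k := by
      rw [← Nat.succ_le_iff, Nat.le_div_iff_mul_le (by omega), Nat.succ_eq_add_one, mul_comm]
    have e2 : (g + 1 ≤ k) ↔ q * (j + 1) < k * p := by
      rw [Nat.succ_le_iff, hg, Nat.div_lt_iff_lt_mul (by omega)]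
    have e3 : (q * (j + 1) ≤ p * k) ↔ q * (j + 1) < k * p := by
      rw [mul_comm k p]
      constructor
      · intro hle
        refine lt_of_le_of_ne hle ?_
        intro he
        exact hnd (he ▸ Dvd.intro _ rfl)
      · exact le_of_lt
    rw [e1, e2, e3]
    exact and_comm
  rw [hset, Nat.card_Ico]
  omega

private lemma sum_odd (n : ℕ) : ∑ j ∈ range n, (2 * (j : ℤ) + 1) = (n : ℤ) ^ 2 := by
  induction n with
  | zero => simp
  | succ n ih => rw [sum_range_succ, ih]; push_cast; ring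

private lemma sq_sum (p q : ℕ) (hp : 1 ≤ p) (hq : 1 ≤ q) (h : Nat.Coprime p q) :
    ∑ k ∈ range q, ((p * k / q : ℕ) : ℤ) ^ 2 =
      ∑ j ∈ range (p - 1), (2 * (j : ℤ) + 1) * ((q : ℤ) - 1 - ((q * (j + 1) / p : ℕ) : ℤ)) := by
  have h1 : ∀ k ∈ range q, ((p * k / q : ℕ) : ℤ) ^ 2 =
      ∑ j ∈ range (p - 1), (if j < p * k / q then (2 * (j : ℤ) + 1) else 0) := by
    intro k hk
    rw [mem_range] at hk
    have hlt : p * k / q ≤ p - 1 := by
      have : p * k / q < p := by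
        rw [Nat.div_lt_iff_lt_mul (by omega)]
        exact Nat.mul_lt_mul_of_pos_left hk (by omega)
      omega
    rw [← sum_odd, ← sum_filter]
    refine sum_congr ?_ (fun _ _ => rfl)
    ext j
    rw [mem_filter, mem_range, mem_range]
    constructor
    · intro hj; exact ⟨lt_of_lt_of_le hj hlt, hj⟩
    · exact fun hj => hj.2
  rw [sum_congr rfl h1, sum_comm]
  refine sum_congr rfl (fun j hj => ?_)
  rw [mem_range] at hj
  rw [← cnt p q j hp hq h (by omega), ← sum_filter, sum_const, nsmul_eq_mul, mul_comm]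

private lemma sum_id (n : ℕ) : 2 * ∑ k ∈ range n, (k : ℤ) = (n : ℤ) * (n - 1) := by
  induction n with
  | zero => simp
  | succ n ih => rw [sum_range_succ, mul_add, ih]; push_cast; ring

private lemma sum_sq (n : ℕ) : 6 * ∑ k ∈ range n, (k : ℤ) ^ 2 = ((n : ℤ) - 1) * n * (2 * n - 1) := by
  induction n with
  | zero => simp
  | succ n ih => rw [sum_range_succ, mul_add, ih]; push_cast; ring

private lemma divmod (p q k : ℕ) :
    ((p * k % q : ℕ) : ℤ) = p * k - q * ((p * k / q : ℕ) : ℤ) := by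
  have h := Nat.div_add_mod (p * k) q
  have h' : ((q * (p * k / q) + p * k % q : ℕ) : ℤ) = ((p * k : ℕ) : ℤ) := by rw [h]
  push_cast at h' ⊢
  linarith

private lemma dS_eq (p q : ℕ) : dS p q = p * ∑ k ∈ range q, (k : ℤ) ^ 2 -
    q * ∑ k ∈ range q, (k : ℤ) * ((p * k / q : ℕ) : ℤ) := by
  unfold dS
  rw [mul_sum, mul_sum, ← sum_sub_distrib]
  refine sum_congr rfl (fun k _ => ?_)
  have h := divmod p q k
  have h2 : ((p : ℤ) * (k : ℤ)) % (q : ℤ) = ((p * k % q : ℕ) : ℤ) := by push_cast; rfl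
  rw [h2, h]
  ring

/-- reciprocity of the Dedekind sums -/
theorem hDsr : Dsr := by
  intro p q hp hq h
  have hS := sum_sq q
  have hT := sum_sq p
  have hD1 := dS_eq p q
  have hD2 := dS_eq q p
  -- (i)
  have h1 : (p : ℤ) ^ 2 * ∑ k ∈ range q, (k : ℤ) ^ 2 -
      2 * p * q * ∑ k ∈ range q, (k : ℤ) * ((p * k / q : ℕ) : ℤ) +
      (q : ℤ) ^ 2 * ∑ k ∈ range q, ((p * k / q : ℕ) : ℤ) ^ 2 = ∑ k ∈ range q, (k : ℤ) ^ 2 := by
    refine Eq.trans ?_ (perm p q hq h (fun k => (k : ℤ) ^ 2))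
    rw [mul_sum, mul_sum, mul_sum, ← sum_sub_distrib, ← sum_add_distrib]
    refine sum_congr rfl (fun k _ => ?_)
    simp only [divmod]
    ring
  -- (iii)
  have h3 : (q : ℤ) * ∑ j ∈ range p, (j : ℤ) - p * ∑ j ∈ range p, ((q * j / p : ℕ) : ℤ) =
      ∑ j ∈ range p, (j : ℤ) := by
    refine Eq.trans ?_ (perm q p hp h.symm (fun k => (k : ℤ)))
    rw [mul_sum, mul_sum, ← sum_sub_distrib]
    refine sum_congr rfl (fun k _ => ?_)
    simp only [divmod]
  have h4 := sum_id p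
  -- (ii)
  have h2 := sq_sum p q hp hq h
  have h5 : ∑ j ∈ range (p - 1), (2 * (j : ℤ) + 1) * ((q : ℤ) - 1 - ((q * (j + 1) / p : ℕ) : ℤ)) =
      ((q : ℤ) - 1) * ((p : ℤ) - 1) ^ 2 - 2 * ∑ j ∈ range p, (j : ℤ) * ((q * j / p : ℕ) : ℤ) +
        ∑ j ∈ range p, ((q * j / p : ℕ) : ℤ) := by
    obtain ⟨n, rfl⟩ : ∃ n, p = n + 1 := ⟨p - 1, by omega⟩
    have e := sum_odd n
    rw [sum_range_succ' (fun j => (j : ℤ) * ((q * j / (n + 1) : ℕ) : ℤ)),
      sum_range_succ' (fun j => ((q * j / (n + 1) : ℕ) : ℤ))]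
    have e2 : ((q : ℤ) - 1) * (((n + 1 : ℕ) : ℤ) - 1) ^ 2 = ∑ j ∈ range n, ((q : ℤ) - 1) * (2 * (j : ℤ) + 1) := by
      rw [← mul_sum, e]; push_cast; ring
    rw [e2]
    simp only [Nat.add_sub_cancel, mul_zero, Nat.zero_div, Nat.cast_zero, add_zero]
    rw [mul_sum, ← sum_sub_distrib, ← sum_add_distrib]
    refine sum_congr rfl (fun j _ => ?_)
    push_cast
    ring
  rw [h5] at h2
  rw [h2] at h1
  set S := ∑ k ∈ range q, (k : ℤ) ^ 2 with hSdef
  set T := ∑ k ∈ range p, (k : ℤ) ^ 2 with hTdef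
  set A := ∑ k ∈ range q, (k : ℤ) * ((p * k / q : ℕ) : ℤ) with hAdef
  set B := ∑ j ∈ range p, (j : ℤ) * ((q * j / p : ℕ) : ℤ) with hBdef
  set G := ∑ j ∈ range p, ((q * j / p : ℕ) : ℤ) with hGdef
  set I := ∑ j ∈ range p, (j : ℤ) with hIdef
  have hp0 : (p : ℤ) ≠ 0 := by exact_mod_cast (by omega : p ≠ 0)
  have hq0 : (q : ℤ) ≠ 0 := by exact_mod_cast (by omega : q ≠ 0)
  have hG : 2 * G = ((p : ℤ) - 1) * (q - 1) := by
    have : (p : ℤ) * (2 * G) = p * (((p : ℤ) - 1) * (q - 1)) := by linear_combination (-2) * h3 + ((q : ℤ) - 1) * h4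
    exact mul_left_cancel₀ hp0 this
  have hAB : 12 * (p * A + q * B) = ((p : ℤ) - 1) * (q - 1) * (8 * p * q - p - q - 1) := by
    have : (q : ℤ) * (12 * (p * A + q * B)) = q * (((p : ℤ) - 1) * (q - 1) * (8 * p * q - p - q - 1)) := by
      linear_combination (-6) * h1 + ((p : ℤ) ^ 2 - 1) * hS + 3 * (q : ℤ) ^ 2 * hG
    exact mul_left_cancel₀ hq0 this
  rw [hD1, hD2]
  linear_combination 2 * (p : ℤ) ^ 3 * hS + 2 * (q : ℤ) ^ 3 * hT - (p : ℤ) * q * hAB

end Pool.Agent.Helper9.T3
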